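import Pool.Agent.H5.TT.Stm

set_option autoImplicit false

open MeasureTheory

namespace H31.TT

open H5.TT

/-- the corrected form of `S_YNG` (with parentheses) -/
def YNG' : Prop := ∃ C : ℝ, 0 ≤ C ∧ ∀ (lam : ℝ) (ϱ : R3 → ℝ), Adm lam ϱ → ∀ (a : R3) (ε : ℝ),
  0 < ε → Integrable (fun x => ϱ x / ‖x - a‖) ∧
    ∫ x, ϱ x / ‖x - a‖ ≤ 3 / 5 * ε * (∫ x, ϱ x ^ (5 / 3 : ℝ)) + C * ε ^ (-(3 / 2) : ℝ) + ∫ x, ϱ x

theorem t_DFI (hYNG : YNG') : S_DFI := by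
  obtain ⟨C, hC, hY⟩ := hYNG
  intro lam mu ϱ τ hϱ hτ
  obtain ⟨hϱm, hϱ0, hϱi, -, -⟩ := hϱ
  have hτ' := hτ
  obtain ⟨hτm, hτ0, hτi, -, -⟩ := hτ'
  have hmeas : Measurable (fun p : R3 × R3 => ϱ p.1 * τ p.2 / ‖p.1 - p.2‖) :=
    ((hϱm.comp measurable_fst).mul (hτm.comp measurable_snd)).div
      (measurable_fst.sub measurable_snd).norm
  have hsm : AEStronglyMeasurable (fun p : R3 × R3 => ϱ p.1 * τ p.2 / ‖p.1 - p.2‖)
      ((volume : Measure R3).prod (volume : Measure R3)) := hmeas.aestronglyMeasurable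
  have hre : ∀ x y : R3, ϱ x * τ y / ‖x - y‖ = ϱ x * (τ y / ‖y - x‖) := by
    intro x y
    rw [norm_sub_rev x y, mul_div_assoc]
  change Integrable (fun p : R3 × R3 => ϱ p.1 * τ p.2 / ‖p.1 - p.2‖)
    ((volume : Measure R3).prod (volume : Measure R3))
  rw [integrable_prod_iff hsm]
  refine ⟨Filter.Eventually.of_forall fun x => ?_, ?_⟩
  · simp only [hre]
    exact (hY mu τ hτ x 1 one_pos).1.const_mul (ϱ x)
  · refine Integrable.mono' (hϱi.mul_const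
      (3 / 5 * 1 * (∫ x, τ x ^ (5 / 3 : ℝ)) + C * 1 ^ (-(3 / 2) : ℝ) + ∫ x, τ x))
      hsm.norm.integral_prod_right' (Filter.Eventually.of_forall fun x => ?_)
    have h1 : ∀ y : R3, ‖ϱ x * τ y / ‖x - y‖‖ = ϱ x * (τ y / ‖y - x‖) := by
      intro y
      rw [hre, Real.norm_of_nonneg]
      exact mul_nonneg (hϱ0 x) (div_nonneg (hτ0 y) (norm_nonneg _))
    have h2 : ∫ y, ‖ϱ x * τ y / ‖x - y‖‖ = ϱ x * ∫ y, τ y / ‖y - x‖ := by
      rw [← integral_const_mul]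
      exact integral_congr_ae (Filter.Eventually.of_forall h1)
    have h3 : 0 ≤ ∫ y, τ y / ‖y - x‖ :=
      integral_nonneg fun y => div_nonneg (hτ0 y) (norm_nonneg _)
    change ‖∫ y, ‖ϱ x * τ y / ‖x - y‖‖‖ ≤ _
    rw [h2, Real.norm_of_nonneg (mul_nonneg (hϱ0 x) h3)]
    exact mul_le_mul_of_nonneg_left (hY mu τ hτ x 1 one_pos).2 (hϱ0 x)

end H31.TT
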